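import Pool.Agent.Helper59.MB.Goals3

/-!
# Packet MB-ENB: the data exist
-/

set_option autoImplicit false

open MeasureTheory Filter Topology Finset

namespace Pool.Agent.Helper20.MB

open Pool.Agent.Helper59.MB

theorem t_ENB (hENT : S_ENT) : S_ENB := by
  intro u hu hnp
  have h1 := hENT u hu hnp
  have hε : ∀ k : ℕ, (0 : ℝ) < (1 / 2) ^ (k + 4) := fun k => by positivity
  choose L₀ hL₀ using fun k : ℕ => h1 ((1 / 2) ^ (k + 4)) (hε k)
  -- the lengths
  set a : ℕ → ℕ := fun k => ∑ j ∈ range (k + 1), (L₀ j + j) with ha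
  have ha1 : ∀ k, L₀ k + k ≤ a k := fun k =>
    Finset.single_le_sum (f := fun j => L₀ j + j) (fun i _ => Nat.zero_le _)
      (Finset.mem_range.2 (Nat.lt_succ_self k))
  have ha2 : ∀ k, a k ≤ a (k + 1) := fun k => by
    simp only [ha]
    rw [Finset.sum_range_succ _ (k + 1)]
    exact Nat.le_add_right _ _
  set L : ℕ → ℕ := fun k => 2 ^ a k with hL
  have hLa : ∀ k, a k ≤ L k := fun k => (Nat.lt_two_pow_self).le
  have hLpos : ∀ k, 0 < L k := fun k => pow_pos (by norm_num) _
  choose U hU using fun k : ℕ => hL₀ k (L k) (by have := ha1 k; have := hLa k; omega)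
  choose N₁ hN₁ using fun k : ℕ => (hU k).2
  set M : ℕ → ℕ := fun k => ∑ j ∈ range (k + 1), (N₁ j + j) with hM
  have hM1 : ∀ k, N₁ k + k ≤ M k := fun k =>
    Finset.single_le_sum (f := fun j => N₁ j + j) (fun i _ => Nat.zero_le _)
      (Finset.mem_range.2 (Nat.lt_succ_self k))
  have hM2 : ∀ k, M k ≤ M (k + 1) := fun k => by
    simp only [hM]
    rw [Finset.sum_range_succ _ (k + 1)]
    exact Nat.le_add_right _ _
  have hT : ∀ k, M k ≤ L k * M k := fun k => Nat.le_mul_of_pos_left _ (hLpos k)
  refine ⟨L, fun k => L k * M k, fun k => (U k : Set (Fin (L k) → ℤ)), ?_⟩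
  exact
    { pos := hLpos
      large := fun k => by have := ha1 k; have := hLa k; omega
      dvd := fun k => pow_dvd_pow 2 (ha2 k)
      Tdvd := fun k => Dvd.intro _ rfl
      Tmono := monotone_nat_of_le_succ fun k =>
        Nat.mul_le_mul (Nat.pow_le_pow_right (by norm_num) (ha2 k)) (hM2 k)
      Tlarge := fun k => by have := hM1 k; have := hT k; omega
      fin := fun k => Finset.finite_toSet _
      card := fun k => by
        rw [Set.ncard_coe_finset]
        refine (hU k).1.trans ?_
        refine Real.rpow_le_rpow_of_exponent_le (by norm_num) ?_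
        refine mul_le_mul_of_nonneg_right ?_ (Nat.cast_nonneg _)
        exact pow_le_pow_of_le_one (by norm_num) (by norm_num) (by omega)
      freq := fun k N hN => by
        refine hN₁ k N ?_
        have := hM1 k
        have := hT k
        omega }

end Pool.Agent.Helper20.MB
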